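import Pool.Agent.Lib.MP_b5021c_nt.IfaceS2a

/-!
# T_SWZ: Schwarz lemma for a quotient
-/

namespace Pool.Agent.B5.H25

open Polynomial Metric

theorem swz : SwzS := by
  intro r s hs hrs b hb
  set f : ℂ → ℂ := fun z => r.eval z / s.eval z with hf
  have hball : ∀ z : ℂ, z ∈ ball (0 : ℂ) 1 → ‖z‖ ≤ 1 := by
    intro z hz
    rw [mem_ball_zero_iff] at hz
    exact hz.le
  have h3 : ∀ z : ℂ, ‖z‖ ≤ 1 → ‖f z‖ ≤ 3 := by
    intro z hz
    rw [hf]
    simp only
    rw [norm_div, div_le_iff₀ (norm_pos_iff.mpr (hs z hz))]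
    exact hrs z hz
  have hd : DifferentiableOn ℂ f (ball 0 1) := by
    intro z hz
    exact ((r.differentiable z).div (s.differentiable z) (hs z (hball z hz))).differentiableWithinAt
  have hm : Set.MapsTo f (ball 0 1) (ball (f 0) 7) := by
    intro z hz
    rw [mem_ball, dist_eq_norm]
    have h1 := h3 z (hball z hz)
    have h2 := h3 0 (by simp)
    have h4 := norm_sub_le (f z) (f 0)
    linarith
  have := Complex.dist_le_div_mul_dist_of_mapsTo_ball hd (hm.mono_right ball_subset_closedBall) (mem_ball_zero_iff.mpr hb)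
  rw [dist_eq_norm, dist_zero_right, div_one] at this
  exact this

end Pool.Agent.B5.H25
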