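import Pool.Agent.Lib.MP_b5021c_nt.B.H69.I3G
import Pool.Agent.Lib.MP_b5021c_nt.B.H42.G3c
import Pool.Agent.Lib.MP_b5021c_nt.IfaceS4

/-!
# MP_b5021c_nt, row U_LSD: number of small non-pure factors, third bound
(adapted from `B/H40/Lsa.lean`, row S_LSA)
-/

namespace Pool.Agent.B5.H25

open scoped LaurentPolynomial
open Pool.Agent.B5 Pool.Agent.B5.H69 Polynomial

set_option linter.unusedSectionVars false

noncomputable section

section Ctx

variable {O : Type} [CommRing O] [IsDomain O] [IsPrincipalIdealRing O] [Coef O]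
  {P L : Type} [Fintype P] [DecidableEq P] [AddCommGroup L] [Module.Free ℤ L] [Module.Finite ℤ L]

variable {phi : L →+ (P → ℤ)} {D : AO O L} {S : L} {i0 : P} {eta : (RO O)ˣ}
    {h : co phi i0 S = 1} {c : RO O} {n : ℕ} {G : Fin n → AO O (Ker (co phi i0))}
    {κ : Type} [Fintype κ] {ix : κ → Fin n} {b : κ → Ker (co phi i0)} {jj : κ → P}
    {e : κ → (RO O)ˣ}

/-- The inequality on the torus, with the factor `V`. -/
theorem torus3 (hA4 : A4S) (hMul : MultiS) (hSt : StSpecS) (hEv : EvRS)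
    (hd : Dat phi D S i0 eta h c n G κ ix b jj e)
    (q : ∀ l, AO O (Ker (co (phK phi (co phi i0)) (jj l))))
    (hj : ∀ l, co (phK phi (co phi i0)) (jj l) (b l) = 1)
    (hX : ∀ l, Xl phi D i0 (b l) (jj l) (hj l) (e l) =
      q l * ∏ i ∈ Finset.univ.erase (ix l), res (Ker (co (phK phi (co phi i0)) (jj l))) (G i))
    (hq : ∀ l, ∀ a ∈ supp (q l), ∀ j' ∈ OO phi S, phi ((b l : Ker (co phi i0)) : L) j' = 0 →
      phi ((a : Ker (co phi i0)) : L) j' = 0)
    (hV : ∀ a ∈ supp (cl (co phi i0) S h eta D), ∀ j ∈ OO phi S,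
      phi (a : L) j = 0 ∨ phi (a : L) j = 1)
    (lam : L →+ ℤ) (hlS : lam S = 0) (hlam : ∀ a ∈ supp D, a ≠ 0 → a ≠ S → 0 < lam a)
    (z : Circle) (hz : evR z (D.coeff 0) ≠ 0)
    (u : AddChar (Ker (co phi i0)) Circle) :
    (∑ l, ‖ln z (fun a : Ker (co (phK phi (co phi i0)) (jj l)) =>
        (u (a : Ker (co phi i0)) : ℂ)) (q l)‖) *
      (∏ i ∈ Finset.univ.filter (fun i => ∀ l, ix l ≠ i),
        ‖ln z (kw phi i0 (Zf phi S i0 b jj) u) (G i)‖) *
      ‖ln z (kw phi i0 (Zf phi S i0 b jj) u) (cl (co phi i0) S h eta D)‖ +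
      ‖ln z (kw phi i0 (Zf phi S i0 b jj) u) (cl (co phi i0) S h eta D)‖ ^ 2 ≤
      2 * (‖ln z (kw phi i0 (Zf phi S i0 b jj) u) (res (Ker (co phi i0)) D)‖ *
        ‖ln z (kw phi i0 (Zf phi S i0 b jj) u) (cl (co phi i0) S h eta D)‖) := by
  classical
  obtain ⟨hE1, hE2, hE3, hE4⟩ := hEv O
  set X := res (Ker (co phi i0)) D with hXd
  set V := cl (co phi i0) S h eta D with hVd
  have hjO : ∀ l, jj l ∈ OO phi S := fun l => (hd.spt l).jO
  have hXb : ∀ a ∈ supp X, ∀ l, mK phi i0 (jj l) a = 0 ∨ mK phi i0 (jj l) a = 1 :=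
    fun a ha l => hd.fd.cc.dd.bin (a : L) ha (jj l)
  have hVb : ∀ a ∈ supp V, ∀ l, mK phi i0 (jj l) a = 0 ∨ mK phi i0 (jj l) a = 1 :=
    fun a ha l => hV a ha (jj l) (hjO l)
  have hZ0 : ∀ j ∈ Z0 phi S i0 b, j ∈ OO phi S := fun j hj => (Finset.mem_filter.mp hj).1
  -- Schwarz-Pick
  have hSP := schwarz_pick hA4 (cT phi i0 jj (Z0 phi S i0 b) u z X)
    (fun T => cT phi i0 jj (Z0 phi S i0 b) u z V T - cT phi i0 jj (Z0 phi S i0 b) u z X T) (by
      intro ζ hζ
      have h1 : mae (fun T => cT phi i0 jj (Z0 phi S i0 b) u z V T -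
          cT phi i0 jj (Z0 phi S i0 b) u z X T) ζ =
          mae (cT phi i0 jj (Z0 phi S i0 b) u z V) ζ - mae (cT phi i0 jj (Z0 phi S i0 b) u z X) ζ := by
        unfold mae
        rw [← Finset.sum_sub_distrib]
        apply Finset.sum_congr rfl
        intro T _
        ring
      rw [h1, mae_cT phi i0 lam jj _ u z V hVb, mae_cT phi i0 lam jj _ u z X hXb]
      exact lemB2 hMul hSt hEv phi D S i0 eta h hd.fd.cc.dd lam hlS hlam z hz jj hjO _ hZ0 u ζ hζ)
  simp only [cT_empty, cT_single phi i0 jj hd.jj_inj _ hd.jj_nZ0] at hSP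
  change ∑ l, ‖ln z (kw phi i0 (Zf phi S i0 b jj) u) X *
      ((ln z (kw phi i0 ((Zf phi S i0 b jj).erase (jj l)) u) V -
        ln z (kw phi i0 (Zf phi S i0 b jj) u) V) -
      (ln z (kw phi i0 ((Zf phi S i0 b jj).erase (jj l)) u) X -
        ln z (kw phi i0 (Zf phi S i0 b jj) u) X)) -
      (ln z (kw phi i0 (Zf phi S i0 b jj) u) V - ln z (kw phi i0 (Zf phi S i0 b jj) u) X) *
      (ln z (kw phi i0 ((Zf phi S i0 b jj).erase (jj l)) u) X -
        ln z (kw phi i0 (Zf phi S i0 b jj) u) X)‖ ≤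
      ‖ln z (kw phi i0 (Zf phi S i0 b jj) u) X‖ ^ 2 -
      ‖ln z (kw phi i0 (Zf phi S i0 b jj) u) V - ln z (kw phi i0 (Zf phi S i0 b jj) u) X‖ ^ 2 at hSP
  set xf := ln z (kw phi i0 (Zf phi S i0 b jj) u) X with hxf
  set vf := ln z (kw phi i0 (Zf phi S i0 b jj) u) V with hvf
  set Pi := ∏ i ∈ Finset.univ.filter (fun i => ∀ l, ix l ≠ i),
        ‖ln z (kw phi i0 (Zf phi S i0 b jj) u) (G i)‖ with hPi
  -- the killed values of the small factors have modulus one
  have hkb : ∀ l, kw phi i0 (Zf phi S i0 b jj) u (b l) = 0 := by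
    intro l
    have hmem : jj l ∈ Zf phi S i0 b jj :=
      Finset.mem_union_left _ (Finset.mem_image_of_mem jj (Finset.mem_univ l))
    have hne : mK phi i0 (jj l) (b l) ≠ 0 := by
      rw [mK_apply, (hd.spt l).bj]
      norm_num
    unfold kw
    rw [ind_neg hmem hne, zero_mul]
  have hkb2 : ∀ l, kw phi i0 ((Zf phi S i0 b jj).erase (jj l)) u (b l) = (u (b l) : ℂ) := by
    intro l
    unfold kw
    rw [ind_pos (fun j hj => hd.b_Zl l j hj), one_mul]
  have hval0 : ∀ l, ln z (kw phi i0 (Zf phi S i0 b jj) u) (G (ix l)) =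
      evR z ((G (ix l)).coeff 0) := by
    intro l
    rw [hd.val_f, hkb, mul_zero, sub_zero, mul_one]
  have hone : ∀ l, ‖ln z (kw phi i0 (Zf phi S i0 b jj) u) (G (ix l))‖ = 1 := by
    intro l
    rw [hval0]
    exact hE2 z _ (hd.spt l).u0
  have hPil : ∀ l, ∏ i ∈ Finset.univ.erase (ix l), ‖ln z (kw phi i0 (Zf phi S i0 b jj) u) (G i)‖ =
      Pi := by
    intro l
    symm
    apply Finset.prod_subset
    · intro i hi
      rw [Finset.mem_erase]
      exact ⟨fun h1 => (Finset.mem_filter.mp hi).2 l h1.symm, Finset.mem_univ _⟩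
    · intro i _ hi
      have h1 : ∃ l', ix l' = i := by
        by_contra hcon
        push Not at hcon
        exact hi (Finset.mem_filter.mpr ⟨Finset.mem_univ _, hcon⟩)
      obtain ⟨l', rfl⟩ := h1
      exact hone l'
  -- the value of the closed element with one port less killed
  have hvl : ∀ l, ln z (kw phi i0 ((Zf phi S i0 b jj).erase (jj l)) u) V =
      vf * (1 - evR z (((e l)⁻¹ : (RO O)ˣ) : RO O) * (u (b l) : ℂ)) := by
    intro l
    rw [hvf, hd.val_V u z _ hd.Zf_sub,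
      hd.val_V u z _ (fun j hj => hd.Zf_sub j (Finset.mem_of_mem_erase hj)),
      ← Finset.mul_prod_erase Finset.univ _ (Finset.mem_univ (ix l)),
      ← Finset.mul_prod_erase Finset.univ (fun i => ln z (kw phi i0 (Zf phi S i0 b jj) u) (G i))
        (Finset.mem_univ (ix l)),
      Finset.prod_congr rfl (fun i hi => hd.val_i l i (Finset.mem_erase.mp hi).1 u z), hval0,
      hd.val_f, hkb2]
    ring
  -- the terms of the sum
  have hterm : ∀ l, ‖xf *
      ((ln z (kw phi i0 ((Zf phi S i0 b jj).erase (jj l)) u) V - vf) -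
      (ln z (kw phi i0 ((Zf phi S i0 b jj).erase (jj l)) u) X - xf)) -
      (vf - xf) * (ln z (kw phi i0 ((Zf phi S i0 b jj).erase (jj l)) u) X - xf)‖ =
      ‖vf‖ * (‖ln z (fun a : Ker (co (phK phi (co phi i0)) (jj l)) =>
        (u (a : Ker (co phi i0)) : ℂ)) (q l)‖ * Pi) := by
    intro l
    have h1 := hd.val_X l (hj l) u z
    rw [hX l, hd.val_q l (q l) (hq l) u z] at h1
    have h2 : evR z (((e l)⁻¹ : (RO O)ˣ) : RO O) * evR z (e l : RO O) = 1 := by
      rw [← map_mul, Units.inv_mul, map_one]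
    have h3 : ‖evR z (((e l)⁻¹ : (RO O)ˣ) : RO O)‖ = 1 := hE2 z _ (Units.isUnit _)
    have h4 : ‖(u (b l) : ℂ)‖ = 1 := Circle.norm_coe _
    have h5 : (u (b l) : ℂ) ≠ 0 := Circle.coe_ne_zero _
    have h6 : xf *
      ((ln z (kw phi i0 ((Zf phi S i0 b jj).erase (jj l)) u) V - vf) -
      (ln z (kw phi i0 ((Zf phi S i0 b jj).erase (jj l)) u) X - xf)) -
      (vf - xf) * (ln z (kw phi i0 ((Zf phi S i0 b jj).erase (jj l)) u) X - xf) =
      -(vf * (evR z (((e l)⁻¹ : (RO O)ˣ) : RO O) * (u (b l) : ℂ) *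
        (ln z (fun a : Ker (co (phK phi (co phi i0)) (jj l)) =>
          (u (a : Ker (co phi i0)) : ℂ)) (q l) *
        ∏ i ∈ Finset.univ.erase (ix l), ln z (kw phi i0 (Zf phi S i0 b jj) u) (G i)))) := by
      rw [h1, hvl l]
      have h7 : evR z (((e l)⁻¹ : (RO O)ˣ) : RO O) * (u (b l) : ℂ) *
          (xf + evR z (e l : RO O) * (u (b l) : ℂ)⁻¹ *
            (ln z (kw phi i0 ((Zf phi S i0 b jj).erase (jj l)) u) X - xf)) =
          evR z (((e l)⁻¹ : (RO O)ˣ) : RO O) * (u (b l) : ℂ) * xf +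
            (ln z (kw phi i0 ((Zf phi S i0 b jj).erase (jj l)) u) X - xf) := by
        rw [mul_add]
        congr 1
        calc evR z (((e l)⁻¹ : (RO O)ˣ) : RO O) * (u (b l) : ℂ) *
            (evR z (e l : RO O) * (u (b l) : ℂ)⁻¹ *
              (ln z (kw phi i0 ((Zf phi S i0 b jj).erase (jj l)) u) X - xf)) =
            (evR z (((e l)⁻¹ : (RO O)ˣ) : RO O) * evR z (e l : RO O)) *
              ((u (b l) : ℂ) * (u (b l) : ℂ)⁻¹) *
              (ln z (kw phi i0 ((Zf phi S i0 b jj).erase (jj l)) u) X - xf) := by ring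
          _ = _ := by rw [h2, mul_inv_cancel₀ h5]; ring
      rw [h7]
      ring
    rw [h6, norm_neg, norm_mul, norm_mul, norm_mul, norm_mul, norm_prod, h3, h4, hPil]
    ring
  rw [Finset.sum_congr rfl (fun l _ => hterm l), ← Finset.mul_sum, ← Finset.sum_mul] at hSP
  have h9 : |‖vf‖ - ‖xf‖| ≤ ‖vf - xf‖ := abs_norm_sub_norm_le vf xf
  have h10 : (‖vf‖ - ‖xf‖) ^ 2 ≤ ‖vf - xf‖ ^ 2 := by
    rw [← sq_abs]
    exact pow_le_pow_left₀ (abs_nonneg _) h9 2
  nlinarith [hSP, h10]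

/-- The inequality for generic `z`, with the factor `V`. -/
theorem gen3 (hA4 : A4S) (hA2 : A2cS) (hA6 : A6S) (hA7 : A7S) (hMul : MultiS) (hSt : StSpecS)
    (hEv : EvRS) (hd : Dat phi D S i0 eta h c n G κ ix b jj e)
    (q : ∀ l, AO O (Ker (co (phK phi (co phi i0)) (jj l))))
    (hj : ∀ l, co (phK phi (co phi i0)) (jj l) (b l) = 1)
    (hX : ∀ l, Xl phi D i0 (b l) (jj l) (hj l) (e l) =
      q l * ∏ i ∈ Finset.univ.erase (ix l), res (Ker (co (phK phi (co phi i0)) (jj l))) (G i))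
    (hq : ∀ l, ∀ a ∈ supp (q l), ∀ j' ∈ OO phi S, phi ((b l : Ker (co phi i0)) : L) j' = 0 →
      phi ((a : Ker (co phi i0)) : L) j' = 0)
    (hV : ∀ a ∈ supp (cl (co phi i0) S h eta D), ∀ j ∈ OO phi S,
      phi (a : L) j = 0 ∨ phi (a : L) j = 1)
    (hpos : ∀ lam : L →+ ℤ, lam S = 0 → (∀ a ∈ supp D, a ≠ 0 → a ≠ S → 0 < lam a) →
      Pos (lam.comp (incl (Ker (co phi i0)))) (cl (co phi i0) S h eta D))
    (lam : L →+ ℤ) (hlS : lam S = 0) (hlam : ∀ a ∈ supp D, a ≠ 0 → a ≠ S → 0 < lam a)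
    (m : κ → ℤ) (am : ∀ l, Ker (co (phK phi (co phi i0)) (jj l)))
    (ham : ∀ l, lam ((am l : Ker (co phi i0)) : L) = m l)
    (hmin : ∀ l, ∀ a ∈ supp (q l), m l ≤ lam ((a : Ker (co phi i0)) : L))
    (huq : ∀ l, ∀ a ∈ supp (q l), lam ((a : Ker (co phi i0)) : L) ≤ m l → a = am l)
    (hV0 : (cl (co phi i0) S h eta D).coeff 0 = D.coeff 0 + (eta : RO O) * D.coeff S)
    (z : Circle) (hz : evR z (D.coeff 0) ≠ 0) :
    (∑ l, ‖evR z ((q l).coeff (am l))‖) *
      (∏ i ∈ Finset.univ.filter (fun i => ∀ l, ix l ≠ i), ‖evR z ((G i).coeff 0)‖) *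
      ‖evR z (D.coeff 0 + (eta : RO O) * D.coeff S)‖ +
      ‖evR z (D.coeff 0 + (eta : RO O) * D.coeff S)‖ ^ 2 ≤
      2 * (‖evR z (D.coeff 0)‖ * ‖evR z (D.coeff 0 + (eta : RO O) * D.coeff S)‖) := by
  classical
  by_cases hv0 : evR z (D.coeff 0 + (eta : RO O) * D.coeff S) = 0
  · rw [hv0, norm_zero]; simp
  set lam' : Ker (co phi i0) →+ ℤ := lam.comp (incl (Ker (co phi i0))) with hlam'
  set X := res (Ker (co phi i0)) D with hXd
  set F : Finset (Fin n) := Finset.univ.filter (fun i => ∀ l, ix l ≠ i) with hF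
  -- the polynomials
  set x0 : ℂ[X] := pl z (ind (mK phi i0) (Zf phi S i0 b jj)) lam' 0 X with hx0
  set pg : Fin n → ℂ[X] := fun i => pl z (ind (mK phi i0) (Zf phi S i0 b jj)) lam' 0 (G i) with hpg
  set pq : κ → ℂ[X] := fun l => pl z (fun _ => (1 : ℂ))
    (lam'.comp (incl (Ker (co (phK phi (co phi i0)) (jj l))))) (m l) (q l) with hpq
  set V := cl (co phi i0) S h eta D with hVd
  set pv : ℂ[X] := pl z (ind (mK phi i0) (Zf phi S i0 b jj)) lam' 0 V with hpv
  have hPV : Pos lam' V := hpos lam hlS hlam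
  have hVnn : ∀ a ∈ supp V, 0 ≤ lam' a := by
    intro a ha
    by_cases h1 : a = 0
    · rw [h1, map_zero]
    · exact (hPV a (Finsupp.mem_support_iff.mpr ha) h1).le
  have hpv0 : pv.coeff 0 = evR z (D.coeff 0 + (eta : RO O) * D.coeff S) := by
    rw [hpv, pl_coeff z _ lam' 0 V 0 _ (map_zero _), ind_zero, mul_one, hV0]
    intro a ha hle
    by_contra hne
    have h1 := hPV a (Finsupp.mem_support_iff.mpr ha) hne
    omega
  -- non-negativity
  have hXnn : ∀ a ∈ supp X, 0 ≤ lam' a := by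
    intro a ha
    by_cases h1 : (a : L) = 0
    · change 0 ≤ lam (a : L)
      rw [h1, map_zero]
    · by_cases h2 : (a : L) = S
      · change 0 ≤ lam (a : L)
        rw [h2, hlS]
      · exact (hlam (a : L) ha h1 h2).le
  have hfull : ∀ i, FullAt lam' (G i) := fun i => hd.fd.full i lam' (hpos lam hlS hlam)
  have hGnn : ∀ i, ∀ a ∈ supp (G i), 0 ≤ lam' a := by
    intro i a ha
    by_cases h1 : a = 0
    · rw [h1, map_zero]
    · exact ((hfull i).2.1 a (Finsupp.mem_support_iff.mpr ha) h1).le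
  -- constant coefficients
  have hx00 : x0.coeff 0 = evR z (D.coeff 0) := by
    rw [hx0, pl_coeff z _ lam' 0 X 0 _ (map_zero _), ind_zero, mul_one]
    · rfl
    · intro a ha hle
      by_contra hne
      have h1 : (a : L) ≠ 0 := fun h2 => hne (Subtype.ext h2)
      have h2 : (a : L) ≠ S := by
        intro h3
        have h4 := mem_Ker.mp a.2
        rw [h3, h] at h4
        exact absurd h4 one_ne_zero
      have h3 := hlam (a : L) ha h1 h2
      change lam (a : L) ≤ 0 at hle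
      omega
  have hpg0 : ∀ i, (pg i).coeff 0 = evR z ((G i).coeff 0) := by
    intro i
    change (pl z (ind (mK phi i0) (Zf phi S i0 b jj)) lam' 0 (G i)).coeff 0 = _
    rw [pl_coeff z _ lam' 0 (G i) 0 _ (map_zero _), ind_zero, mul_one]
    intro a ha hle
    by_contra hne
    have h1 := (hfull i).2.1 a (Finsupp.mem_support_iff.mpr ha) hne
    omega
  have hpq0 : ∀ l, (pq l).coeff 0 = evR z ((q l).coeff (am l)) := by
    intro l
    change (pl z (fun _ => (1 : ℂ)) _ (m l) (q l)).coeff 0 = _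
    rw [pl_coeff z _ _ (m l) (q l) (am l) (fun a ha hle => huq l a ha hle) (ham l), mul_one]
  -- zero-freeness
  have hZF : ZF x0 := by
    intro s hs
    have h1 := lemB hMul hSt hEv phi D S i0 eta h hd.fd.cc.dd lam hlS hlam z hz
      (κ := Empty) (fun l => l.elim) (fun l => l.elim) (Zf phi S i0 b jj) hd.Zf_sub
      (1 : AddChar (Ker (co phi i0)) Circle) s 0
      (fun l => l.elim) hs (by rw [norm_zero]; norm_num) (fun l => l.elim)
    rw [zero_mul, add_zero] at h1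
    rw [hx0, pl_eval]
    have h2 : (fun a : Ker (co phi i0) => s ^ (lam' a - 0).toNat *
        ind (mK phi i0) (Zf phi S i0 b jj) a) =
        wt phi i0 lam (κ := Empty) (fun l => l.elim) (Zf phi S i0 b jj)
          (1 : AddChar (Ker (co phi i0)) Circle) s (fun l => l.elim) := by
      funext a
      unfold wt
      rw [sub_zero, AddChar.one_apply, Circle.coe_one, mul_one, Finset.univ_eq_empty,
        Finset.prod_empty, mul_one]
      rfl
    rw [h2]
    exact h1
  have hx0ne : x0 ≠ 0 := by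
    intro h1
    rw [h1, coeff_zero] at hx00
    exact hz hx00.symm
  -- the inequality on the circle
  have hpvne : pv ≠ 0 := by
    intro h1
    rw [h1, coeff_zero] at hpv0
    exact hv0 hpv0.symm
  set pp : Option κ → ℂ[X] := fun o => Option.elim o (pv * pv)
    (fun l => pq l * (∏ i ∈ F, pg i) * pv) with hpp
  have hcirc : ∀ s : ℂ, ‖s‖ = 1 →
      ∑ o, ‖(pp o).eval s‖ ≤ 2 * ‖(x0 * pv).eval s‖ := by
    intro s hs
    let t : Circle := ⟨s, by
      rw [Submonoid.unitSphere, Submonoid.mem_mk, Subsemigroup.mem_mk, Metric.mem_sphere,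
        dist_zero_right]
      exact hs⟩
    have hts : (t : ℂ) = s := rfl
    let u : AddChar (Ker (co phi i0)) Circle := twist 1 lam' t
    have hu : ∀ a, (u a : ℂ) = ((t ^ (lam' a) : Circle) : ℂ) := by
      intro a
      change (((1 : AddChar (Ker (co phi i0)) Circle) a * t ^ (lam' a) : Circle) : ℂ) = _
      rw [AddChar.one_apply, one_mul]
    have h1 := torus3 hA4 hMul hSt hEv hd q hj hX hq hV lam hlS hlam z hz u
    have h2 : ‖x0.eval s‖ = ‖ln z (kw phi i0 (Zf phi S i0 b jj) u) X‖ := by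
      rw [← hts, hx0, pl_circle z _ lam' 0 X hXnn t]
      congr 2
      funext a
      unfold kw
      rw [hu]
    have h2v : ‖pv.eval s‖ = ‖ln z (kw phi i0 (Zf phi S i0 b jj) u) V‖ := by
      rw [← hts, hpv, pl_circle z _ lam' 0 V hVnn t]
      congr 2
      funext a
      unfold kw
      rw [hu]
    have h3 : ∀ i, ‖(pg i).eval s‖ = ‖ln z (kw phi i0 (Zf phi S i0 b jj) u) (G i)‖ := by
      intro i
      rw [← hts]
      change ‖(pl z (ind (mK phi i0) (Zf phi S i0 b jj)) lam' 0 (G i)).eval (t : ℂ)‖ = _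
      rw [pl_circle z _ lam' 0 (G i) (hGnn i) t]
      congr 2
      funext a
      unfold kw
      rw [hu]
    have h4 : ∀ l, ‖(pq l).eval s‖ = ‖ln z (fun a : Ker (co (phK phi (co phi i0)) (jj l)) =>
        (u (a : Ker (co phi i0)) : ℂ)) (q l)‖ := by
      intro l
      rw [← hts]
      change ‖(pl z (fun _ => (1 : ℂ)) _ (m l) (q l)).eval (t : ℂ)‖ = _
      rw [pl_circle z _ _ (m l) (q l) (hmin l) t]
      have h8 : (fun a : Ker (co (phK phi (co phi i0)) (jj l)) => (1 : ℂ) *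
          ((t ^ ((lam'.comp (incl (Ker (co (phK phi (co phi i0)) (jj l))))) a) : Circle) : ℂ)) =
          fun a : Ker (co (phK phi (co phi i0)) (jj l)) => (u (a : Ker (co phi i0)) : ℂ) := by
        funext a
        rw [one_mul, hu]
        rfl
      rw [h8]
    have h5 : ∀ l, ‖(pq l * (∏ i ∈ F, pg i) * pv).eval s‖ =
        ‖ln z (fun a : Ker (co (phK phi (co phi i0)) (jj l)) =>
        (u (a : Ker (co phi i0)) : ℂ)) (q l)‖ *
        ((∏ i ∈ F, ‖ln z (kw phi i0 (Zf phi S i0 b jj) u) (G i)‖) *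
          ‖ln z (kw phi i0 (Zf phi S i0 b jj) u) V‖) := by
      intro l
      rw [eval_mul, norm_mul, eval_mul, norm_mul, h4, eval_prod, norm_prod, h2v, mul_assoc]
      congr 2
      exact Finset.prod_congr rfl (fun i _ => h3 i)
    rw [Fintype.sum_option]
    change ‖(pv * pv).eval s‖ + ∑ l, ‖(pq l * (∏ i ∈ F, pg i) * pv).eval s‖ ≤ _
    rw [Finset.sum_congr rfl (fun l _ => h5 l), ← Finset.sum_mul, eval_mul, norm_mul, eval_mul,
      norm_mul, h2, h2v, ← mul_assoc, ← sq, add_comm]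
    exact h1
  -- Mahler measures
  have h6 := hA2 (Option κ) pp (x0 * pv) 2 (mul_ne_zero hx0ne hpvne) two_pos hcirc
  rw [Fintype.sum_option, mahlerMeasure_mul, hA7 x0 hZF, hx00] at h6
  change (pv * pv).mahlerMeasure + ∑ l, (pq l * (∏ i ∈ F, pg i) * pv).mahlerMeasure ≤ _ at h6
  rw [mahlerMeasure_mul, Finset.sum_congr rfl
    (fun l _ => mahlerMeasure_mul (pq l * (∏ i ∈ F, pg i)) pv), ← Finset.sum_mul] at h6
  have hmv : 0 < pv.mahlerMeasure := mahlerMeasure_pos_of_ne_zero hpvne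
  have h8 : pv.mahlerMeasure + ∑ l, (pq l * (∏ i ∈ F, pg i)).mahlerMeasure ≤
      2 * ‖evR z (D.coeff 0)‖ := by
    have h9 : (pv.mahlerMeasure + ∑ l, (pq l * (∏ i ∈ F, pg i)).mahlerMeasure) *
        pv.mahlerMeasure ≤ 2 * ‖evR z (D.coeff 0)‖ * pv.mahlerMeasure := by
      calc _ = pv.mahlerMeasure * pv.mahlerMeasure +
            (∑ l, (pq l * (∏ i ∈ F, pg i)).mahlerMeasure) * pv.mahlerMeasure := by ring
        _ ≤ _ := h6
        _ = _ := by ring
    exact le_of_mul_le_mul_right h9 hmv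
  have h10 : ‖evR z (D.coeff 0 + (eta : RO O) * D.coeff S)‖ ≤ pv.mahlerMeasure := by
    rw [← hpv0]
    exact coeff_le_mahler hA6 pv
  have h11 : (∑ l, ‖evR z ((q l).coeff (am l))‖) * (∏ i ∈ F, ‖evR z ((G i).coeff 0)‖) ≤
      ∑ l, (pq l * (∏ i ∈ F, pg i)).mahlerMeasure := by
    rw [Finset.sum_mul]
    apply Finset.sum_le_sum
    intro l _
    have h7 := coeff_le_mahler hA6 (pq l * (∏ i ∈ F, pg i))
    rw [mul_coeff_zero, coeff_zero_prod, norm_mul, norm_prod, hpq0] at h7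
    rw [Finset.prod_congr rfl (fun i _ => by rw [hpg0 i] :
      ∀ i ∈ F, ‖(pg i).coeff 0‖ = ‖evR z ((G i).coeff 0)‖)] at h7
    exact h7
  have h12 : 0 ≤ ‖evR z (D.coeff 0 + (eta : RO O) * D.coeff S)‖ := norm_nonneg _
  calc (∑ l, ‖evR z ((q l).coeff (am l))‖) * (∏ i ∈ F, ‖evR z ((G i).coeff 0)‖) *
        ‖evR z (D.coeff 0 + (eta : RO O) * D.coeff S)‖ +
        ‖evR z (D.coeff 0 + (eta : RO O) * D.coeff S)‖ ^ 2
      = ((∑ l, ‖evR z ((q l).coeff (am l))‖) * (∏ i ∈ F, ‖evR z ((G i).coeff 0)‖) +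
        ‖evR z (D.coeff 0 + (eta : RO O) * D.coeff S)‖) *
        ‖evR z (D.coeff 0 + (eta : RO O) * D.coeff S)‖ := by ring
    _ ≤ (2 * ‖evR z (D.coeff 0)‖) * ‖evR z (D.coeff 0 + (eta : RO O) * D.coeff S)‖ :=
        mul_le_mul_of_nonneg_right (by linarith) h12
    _ = _ := by ring

end Ctx

theorem lsd (hA4 : A4S) (hA2 : A2cS) (hA6 : A6S) (hA7 : A7S) (hI1 : I1S) (hI2 : I2S) (hGen : GenS)
    (hMul : MultiS) (hSmall : SmallS) (hEv : EvRS) (hZf : ZfinS) (hSt : StSpecS) (hG0 : G0S)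
    (hA : A2S) (hM : MmulS) : LsdS := by
  intro O _ _ _ _ P L _ _ _ _ _ phi D S i0 eta h c n G hfd
  classical
  obtain ⟨hE1, hE2, hE3, hE4⟩ := hEv O
  have hsm := hSmall O P L phi D S i0 eta h c n G hfd
  obtain ⟨-, -, hV0, hVww, -, hpos⟩ := hG0 O P L phi D S i0 eta h hfd.cc
  -- the data
  have hex : ∀ l : {l : Fin n // l ∈ snp phi S i0 G}, ∃ (b : Ker (co phi i0)) (j : P) (e : (RO O)ˣ),
      Spt phi S i0 G (l : Fin n) b j e := by
    intro l
    have hl := (Finset.mem_filter.mp l.2).2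
    exact (hsm l.1 hl.1).2.2 hl.2
  choose b jj e hspt using hex
  have hd : Dat phi D S i0 eta h c n G {l : Fin n // l ∈ snp phi S i0 G} (fun l => (l : Fin n))
      b jj e := ⟨hfd, Subtype.val_injective, hspt⟩
  have hj : ∀ l, co (phK phi (co phi i0)) (jj l) (b l) = 1 := fun l => (hspt l).bj
  have hI := fun l : {l : Fin n // l ∈ snp phi S i0 G} =>
    hI1 O P L phi D S i0 eta h c n G hfd (l : Fin n) (b l) (jj l) (e l) (hspt l) (hj l)
  have hqe : ∀ l, ∃ q : AO O (Ker (co (phK phi (co phi i0)) (jj l))),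
      Xl phi D i0 (b l) (jj l) (hj l) (e l) =
      q * ∏ i ∈ Finset.univ.erase (l : Fin n), res (Ker (co (phK phi (co phi i0)) (jj l))) (G i) := by
    intro l
    obtain ⟨q, hq⟩ := (hI l).2
    exact ⟨q, by rw [hq, mul_comm]⟩
  choose q hX using hqe
  have hq2 : ∀ l, ∀ a ∈ supp (q l), ∀ j' ∈ OO phi S, phi ((b l : Ker (co phi i0)) : L) j' = 0 →
      phi ((a : Ker (co phi i0)) : L) j' = 0 := by
    intro l
    exact hI2 O P L phi D S i0 eta h c n G hfd (l : Fin n) (b l) (jj l) (e l) (hspt l) (hj l) (q l)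
      (hX l)
  have hqne : ∀ l, q l ≠ 0 := by
    intro l h0
    apply (hI l).1
    rw [hX l, h0, zero_mul]
  -- the generic functional
  obtain ⟨lam0, hl0S, hl0⟩ := hfd.cc.ray.2.2
  have hspan : ∀ a ∈ Submodule.span ℤ ({S} : Set L), ∃ m : ℤ, a = m • S := by
    intro a ha
    obtain ⟨m, hm⟩ := Submodule.mem_span_singleton.mp ha
    exact ⟨m, hm.symm⟩
  have hsat : Sat (Submodule.span ℤ ({S} : Set L)) := by
    intro m a hm ha
    obtain ⟨k, hk⟩ := hspan _ ha
    have h1 : m * co phi i0 a = k := by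
      have h2 := congrArg (co phi i0) hk
      rw [map_zsmul, map_zsmul, h, smul_eq_mul, smul_eq_mul, mul_one] at h2
      exact h2
    have h3 : m • (a - co phi i0 a • S) = 0 := by
      rw [smul_sub, hk, ← h1, mul_smul, sub_self]
    have h4 : a - co phi i0 a • S = 0 := (smul_eq_zero.mp h3).resolve_left hm
    rw [sub_eq_zero.mp h4]
    exact Submodule.smul_mem _ _ (Submodule.mem_span_singleton_self S)
  obtain ⟨lam, hlK, hlS', hlT⟩ := hGen L (D.coeff.support.filter fun a => a ≠ 0 ∧ a ≠ S)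
    (Finset.univ.biUnion fun l : {l : Fin n // l ∈ snp phi S i0 G} =>
      (q l).coeff.support.image fun a : Ker (co (phK phi (co phi i0)) (jj l)) =>
        ((a : Ker (co phi i0)) : L))
    (Submodule.span ℤ ({S} : Set L)) lam0 (by
      intro k hk
      obtain ⟨m, rfl⟩ := hspan k hk
      rw [map_zsmul, hl0S, smul_zero]) hsat (by
      intro a ha
      obtain ⟨h1, h2, h3⟩ := Finset.mem_filter.mp ha
      exact hl0 a (Finsupp.mem_support_iff.mp h1) h2 h3) (by
      intro a ha a' ha' hsub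
      obtain ⟨m, hm⟩ := hspan _ hsub
      obtain ⟨l, _, hl⟩ := Finset.mem_biUnion.mp ha
      obtain ⟨a1, _, rfl⟩ := Finset.mem_image.mp hl
      obtain ⟨l', _, hl'⟩ := Finset.mem_biUnion.mp ha'
      obtain ⟨a2, _, rfl⟩ := Finset.mem_image.mp hl'
      have h1 := congrArg (co phi i0) hm
      rw [map_sub, map_zsmul, h, mem_Ker.mp (a1 : Ker (co phi i0)).2,
        mem_Ker.mp (a2 : Ker (co phi i0)).2, sub_zero, smul_eq_mul, mul_one] at h1
      rw [← h1, zero_smul] at hm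
      exact sub_eq_zero.mp hm)
  have hlS : lam S = 0 := hlK S (Submodule.mem_span_singleton_self S)
  have hlam : ∀ a ∈ supp D, a ≠ 0 → a ≠ S → 0 < lam a := fun a ha h1 h2 =>
    hlS' a (Finset.mem_filter.mpr ⟨Finsupp.mem_support_iff.mpr ha, h1, h2⟩)
  -- the lowest exponents
  have hmin : ∀ l, ∃ am ∈ (q l).coeff.support, ∀ a ∈ (q l).coeff.support,
      lam ((am : Ker (co phi i0)) : L) ≤ lam ((a : Ker (co phi i0)) : L) := by
    intro l
    apply Finset.exists_min_image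
    rw [Finsupp.support_nonempty_iff]
    intro h0
    apply hqne l
    exact AddMonoidAlgebra.coeff_eq_zero.mp h0
  choose am ham1 ham2 using hmin
  have huq : ∀ l, ∀ a ∈ supp (q l), lam ((a : Ker (co phi i0)) : L) ≤
      lam ((am l : Ker (co phi i0)) : L) → a = am l := by
    intro l a ha hle
    have h1 := ham2 l a (Finsupp.mem_support_iff.mpr ha)
    have h2 := hlT ((a : Ker (co phi i0)) : L) (Finset.mem_biUnion.mpr ⟨l, Finset.mem_univ _,
      Finset.mem_image.mpr ⟨a, Finsupp.mem_support_iff.mpr ha, rfl⟩⟩)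
      ((am l : Ker (co phi i0)) : L) (Finset.mem_biUnion.mpr ⟨l, Finset.mem_univ _,
      Finset.mem_image.mpr ⟨am l, ham1 l, rfl⟩⟩) (le_antisymm hle h1)
    exact Subtype.ext (Subtype.ext h2)
  -- the inequality for generic `z`
  have hgen : ∀ z : Circle, evR z (D.coeff 0) ≠ 0 →
      (∑ l, ‖evR z ((q l).coeff (am l))‖) *
      (∏ i ∈ Finset.univ.filter (fun i => ∀ l : {l : Fin n // l ∈ snp phi S i0 G}, (l : Fin n) ≠ i),
        ‖evR z ((G i).coeff 0)‖) *
      ‖evR z (D.coeff 0 + (eta : RO O) * D.coeff S)‖ +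
      ‖evR z (D.coeff 0 + (eta : RO O) * D.coeff S)‖ ^ 2 ≤
      2 * (‖evR z (D.coeff 0)‖ * ‖evR z (D.coeff 0 + (eta : RO O) * D.coeff S)‖) := by
    intro z hz
    exact gen3 hA4 hA2 hA6 hA7 hMul hSt hEv hd q hj hX hq2
      (fun a ha j hj => (hVww a ha).1 j hj) hpos lam hlS hlam
      (fun l => lam ((am l : Ker (co phi i0)) : L)) am (fun l => rfl)
      (fun l a ha => ham2 l a (Finsupp.mem_support_iff.mpr ha)) huq hV0 z hz
  -- the elements `E_l`
  set E : Fin n → RO O := fun i =>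
    if hi : i ∈ snp phi S i0 G then (q ⟨i, hi⟩).coeff (am ⟨i, hi⟩) else 1 with hE
  have hEne : ∀ i, E i ≠ 0 := by
    intro i
    rw [hE]
    dsimp only
    by_cases hi : i ∈ snp phi S i0 G
    · rw [dif_pos hi]
      exact Finsupp.mem_support_iff.mp (ham1 ⟨i, hi⟩)
    · rw [dif_neg hi]
      exact one_ne_zero
  have hprod : ∀ z : Circle, ∏ i ∈ Finset.univ.filter
      (fun i => ∀ l : {l : Fin n // l ∈ snp phi S i0 G}, (l : Fin n) ≠ i),
      ‖evR z ((G i).coeff 0)‖ = ∏ i ∈ big G, ‖evR z ((G i).coeff 0)‖ := by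
    intro z
    symm
    apply Finset.prod_subset
    · intro i hi
      rw [Finset.mem_filter]
      refine ⟨Finset.mem_univ _, ?_⟩
      intro l hl
      have h1 := (Finset.mem_filter.mp l.2).2.1
      apply h1
      rw [hl]
      exact (Finset.mem_filter.mp hi).2
    · intro i _ hi
      apply hE2
      apply (hsm i _).1
      intro h1
      exact hi (Finset.mem_filter.mpr ⟨Finset.mem_univ _, h1⟩)
  have hall : ∀ z : Circle, (∑ l : {l : Fin n // l ∈ snp phi S i0 G}, ‖evR z (E l.1)‖) *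
      (∏ i ∈ big G, ‖evR z ((G i).coeff 0)‖) *
      ‖evR z (D.coeff 0 + (eta : RO O) * D.coeff S)‖ +
      ‖evR z (D.coeff 0 + (eta : RO O) * D.coeff S)‖ ^ 2 ≤
      2 * (‖evR z (D.coeff 0)‖ * ‖evR z (D.coeff 0 + (eta : RO O) * D.coeff S)‖) := by
    have hclosed : IsClosed {z : Circle |
        (∑ l : {l : Fin n // l ∈ snp phi S i0 G}, ‖evR z (E l.1)‖) *
        (∏ i ∈ big G, ‖evR z ((G i).coeff 0)‖) *
        ‖evR z (D.coeff 0 + (eta : RO O) * D.coeff S)‖ +
        ‖evR z (D.coeff 0 + (eta : RO O) * D.coeff S)‖ ^ 2 ≤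
        2 * (‖evR z (D.coeff 0)‖ * ‖evR z (D.coeff 0 + (eta : RO O) * D.coeff S)‖)} := by
      apply isClosed_le
      · apply Continuous.add
        · apply Continuous.mul
          · apply Continuous.mul
            · apply continuous_finsetSum
              intro l _
              exact (hE4 _).norm
            · apply continuous_finsetProd
              intro i _
              exact (hE4 _).norm
          · exact (hE4 _).norm
        · exact ((hE4 _).norm).pow 2
      · exact continuous_const.mul ((hE4 _).norm.mul (hE4 _).norm)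
    apply all_of_closed _ hclosed {z : Circle | evR z (D.coeff 0) = 0}
      (hZf O _ hfd.cc.dd.st.1)
    intro z hz
    have hz1 : evR z (D.coeff 0) ≠ 0 := fun h1 => hz h1
    have h1 := hgen z hz1
    rw [hprod] at h1
    have h2 : ∑ l : {l : Fin n // l ∈ snp phi S i0 G}, ‖evR z (E l.1)‖ =
        ∑ l : {l : Fin n // l ∈ snp phi S i0 G}, ‖evR z ((q l).coeff (am l))‖ := by
      apply Finset.sum_congr rfl
      intro l _
      rw [hE]
      dsimp only
      rw [dif_pos l.2]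
    change (∑ l : {l : Fin n // l ∈ snp phi S i0 G}, ‖evR z (E l.1)‖) *
      (∏ i ∈ big G, ‖evR z ((G i).coeff 0)‖) *
      ‖evR z (D.coeff 0 + (eta : RO O) * D.coeff S)‖ +
      ‖evR z (D.coeff 0 + (eta : RO O) * D.coeff S)‖ ^ 2 ≤ _
    rw [h2]
    exact h1
  -- Mahler measures in `z`
  have hD : D.coeff 0 ≠ 0 := hfd.cc.dd.st.1
  have hV : D.coeff 0 + (eta : RO O) * D.coeff S ≠ 0 := hfd.cc.v0
  have hG : ∀ i ∈ big G, (G i).coeff 0 ≠ 0 := fun i _ => (hfd.st i).1
  have hP : ∏ i ∈ big G, (G i).coeff 0 ≠ 0 := Finset.prod_ne_zero_iff.2 hG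
  set V0 := D.coeff 0 + (eta : RO O) * D.coeff S with hV0d
  set pz : Option {l : Fin n // l ∈ snp phi S i0 G} → RO O := fun o => Option.elim o (V0 * V0)
    (fun l => E l.1 * (∏ i ∈ big G, (G i).coeff 0) * V0) with hpz
  have h1 := hA O (Option {l : Fin n // l ∈ snp phi S i0 G}) pz (D.coeff 0 * V0) 2
    (mul_ne_zero hD hV)
    (fun o => by
      cases o with
      | none => exact mul_ne_zero hV hV
      | some l => exact mul_ne_zero (mul_ne_zero (hEne l.1) hP) hV) two_pos (fun z => by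
      rw [Fintype.sum_option]
      change ‖evR z (V0 * V0)‖ + ∑ l : {l : Fin n // l ∈ snp phi S i0 G},
        ‖evR z (E l.1 * (∏ i ∈ big G, (G i).coeff 0) * V0)‖ ≤ _
      have h2 : ∀ l : {l : Fin n // l ∈ snp phi S i0 G},
          ‖evR z (E l.1 * (∏ i ∈ big G, (G i).coeff 0) * V0)‖ =
          ‖evR z (E l.1)‖ * ((∏ i ∈ big G, ‖evR z ((G i).coeff 0)‖) * ‖evR z V0‖) := by
        intro l
        rw [map_mul, map_mul, norm_mul, norm_mul, map_prod, norm_prod, mul_assoc]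
      rw [Finset.sum_congr rfl (fun l _ => h2 l), ← Finset.sum_mul, map_mul, norm_mul, map_mul,
        norm_mul, ← mul_assoc, ← sq, add_comm]
      exact hall z)
  rw [Fintype.sum_option] at h1
  change M (V0 * V0) + ∑ l : {l : Fin n // l ∈ snp phi S i0 G},
    M (E l.1 * (∏ i ∈ big G, (G i).coeff 0) * V0) ≤ _ at h1
  rw [(hM O).1 _ _ hV hV, (hM O).1 _ _ hD hV] at h1
  have hMV : 0 < M V0 := lt_of_lt_of_le one_pos ((hM O).2.1 _)
  have h2 : ∀ l : {l // l ∈ snp phi S i0 G}, (∏ i ∈ big G, M ((G i).coeff 0)) * M V0 ≤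
      M (E l.1 * (∏ i ∈ big G, (G i).coeff 0) * V0) := by
    intro l
    rw [(hM O).1 _ _ (mul_ne_zero (hEne l.1) hP) hV, (hM O).1 _ _ (hEne l.1) hP,
      H42.M_prod hM O (big G) (fun i => (G i).coeff 0) hG]
    have h3 : 0 ≤ ∏ i ∈ big G, M ((G i).coeff 0) :=
      Finset.prod_nonneg fun i _ => le_trans zero_le_one ((hM O).2.1 _)
    exact mul_le_mul_of_nonneg_right (le_mul_of_one_le_left h3 ((hM O).2.1 _)) hMV.le
  have h3 : ((snp phi S i0 G).card : ℝ) * (∏ i ∈ big G, M ((G i).coeff 0)) * M V0 ≤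
      ∑ l : {l : Fin n // l ∈ snp phi S i0 G},
        M (E l.1 * (∏ i ∈ big G, (G i).coeff 0) * V0) := by
    calc ((snp phi S i0 G).card : ℝ) * (∏ i ∈ big G, M ((G i).coeff 0)) * M V0
        = ∑ _l : {l : Fin n // l ∈ snp phi S i0 G},
          (∏ i ∈ big G, M ((G i).coeff 0)) * M V0 := by
          rw [Finset.sum_const, Finset.card_univ, Fintype.card_coe, nsmul_eq_mul, mul_assoc]
      _ ≤ _ := Finset.sum_le_sum fun l _ => h2 l
  have h4 : (((snp phi S i0 G).card : ℝ) * (∏ i ∈ big G, M ((G i).coeff 0)) + M V0) * M V0 ≤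
      2 * M (D.coeff 0) * M V0 := by
    calc _ = ((snp phi S i0 G).card : ℝ) * (∏ i ∈ big G, M ((G i).coeff 0)) * M V0 +
          M V0 * M V0 := by ring
      _ ≤ _ := by linarith
  exact le_of_mul_le_mul_right h4 hMV

end

end Pool.Agent.B5.H25
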